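import Mathlib

/-!
# MP_b6be33_co, Q1: the triangle condition does not characterise the fixed vertices

A regular self-complementary graph on nine vertices (`k = 2`) in which every vertex lies in exactly
`k (k - 1) = 2` triangles, but only one vertex is fixed by an isomorphism-permutation.
-/

set_option autoImplicit false

namespace Pool.Agent.Results.MP_b6be33_co.OrderNine

/-- `P` is an isomorphism-permutation of `G`: an isomorphism from `G` onto its complement. -/
def IsAnti {V : Type} (G : SimpleGraph V) (P : Equiv.Perm V) : Prop :=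
  ∀ u v : V, u ≠ v → (G.Adj u v ↔ ¬ G.Adj (P u) (P v))

/-- `G` is self-complementary. -/
def SelfComplementary {V : Type} (G : SimpleGraph V) : Prop := Nonempty (G ≃g Gᶜ)

/-- `F(G)`: the set of the vertices fixed by at least one isomorphism-permutation of `G`. -/
def F {V : Type} (G : SimpleGraph V) : Set V := {v | ∃ P : Equiv.Perm V, IsAnti G P ∧ P v = v}

/-- The number of triangles of `G` which contain `v`. -/
noncomputable def trianglesAt {V : Type} (G : SimpleGraph V) (v : V) : ℕ :=
  {t : Finset V | G.IsNClique 3 t ∧ v ∈ t}.ncard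

/-- the neighbourhoods in the example -/
def nb : Fin 9 → Finset (Fin 9) :=
  ![{1, 3, 6, 8}, {0, 2, 3, 5}, {1, 5, 7, 8}, {0, 1, 4, 7}, {3, 5, 6, 7}, {1, 2, 4, 8},
    {0, 4, 7, 8}, {2, 3, 4, 6}, {0, 2, 5, 6}]

/-- the example -/
def G : SimpleGraph (Fin 9) where
  Adj u v := v ∈ nb u
  symm := ⟨by decide⟩
  loopless := ⟨by decide⟩

instance : DecidableRel G.Adj := fun u v => inferInstanceAs (Decidable (v ∈ nb u))

/-- an isomorphism-permutation: `(0)(1 2 3 4)(5 6 7 8)` -/
def σ : Equiv.Perm (Fin 9) where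
  toFun := ![0, 2, 3, 4, 1, 6, 7, 8, 5]
  invFun := ![0, 4, 1, 2, 3, 8, 5, 6, 7]
  left_inv := by decide
  right_inv := by decide

lemma σ_anti : IsAnti G σ := by
  unfold IsAnti
  decide

/-- common neighbours -/
def cn (u v : Fin 9) : ℕ := (Finset.univ.filter fun w => G.Adj w u ∧ G.Adj w v).card

/-- common non-neighbours -/
def cn' (u v : Fin 9) : ℕ :=
  (Finset.univ.filter fun w => w ≠ u ∧ w ≠ v ∧ ¬ G.Adj w u ∧ ¬ G.Adj w v).card

lemma cn_eq {P : Equiv.Perm (Fin 9)} (hP : IsAnti G P) (u v : Fin 9) :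
    cn u v = cn' (P u) (P v) := by
  unfold cn cn'
  refine Finset.card_bij (fun w _ => P w) ?_ ?_ ?_
  · intro w hw
    simp only [Finset.mem_filter, Finset.mem_univ, true_and] at hw ⊢
    have h1 := hw.1.ne
    have h2 := hw.2.ne
    exact ⟨fun h => h1 (P.injective h), fun h => h2 (P.injective h),
      (hP w u h1).1 hw.1, (hP w v h2).1 hw.2⟩
  · intro a _ b _ h
    exact P.injective h
  · intro w hw
    simp only [Finset.mem_filter, Finset.mem_univ, true_and] at hw
    obtain ⟨h1, h2, h3, h4⟩ := hw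
    refine ⟨P.symm w, ?_, by simp⟩
    simp only [Finset.mem_filter, Finset.mem_univ, true_and]
    have h1' : P.symm w ≠ u := fun h => h1 (by rw [← h]; simp)
    have h2' : P.symm w ≠ v := fun h => h2 (by rw [← h]; simp)
    exact ⟨(hP _ u h1').2 (by simpa using h3), (hP _ v h2').2 (by simpa using h4)⟩

lemma obstruction : ∀ v : Fin 9, v ≠ 0 →
    (∃ w, w ≠ v ∧ ¬ G.Adj w v ∧ ∀ u, G.Adj u v → cn u v ≠ cn' w v) ∨
    (∃ u, G.Adj u v ∧ ∀ w, w ≠ v → ¬ G.Adj w v → cn u v ≠ cn' w v) := by
  decide

lemma F_eq : F G = {0} := by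
  ext v
  simp only [F, Set.mem_ofPred_eq, Set.mem_singleton_iff]
  constructor
  · rintro ⟨P, hP, hv⟩
    by_contra h0
    rcases obstruction v h0 with ⟨w, h1, h2, h3⟩ | ⟨u, h2, h3⟩
    · have h4 : P.symm w ≠ v := fun h => h1 (by rw [← hv, ← h]; simp)
      have h5 : G.Adj (P.symm w) v := (hP _ _ h4).2 (by rw [hv]; simpa using h2)
      have h6 := cn_eq hP (P.symm w) v
      rw [hv] at h6
      exact h3 _ h5 (by simpa using h6)
    · have h4 : P u ≠ v := fun h => h2.ne (P.injective (by rw [h, hv]))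
      have h5 : ¬ G.Adj (P u) v := by
        have := (hP u v h2.ne).1 h2
        rwa [hv] at this
      have h6 := cn_eq hP u v
      rw [hv] at h6
      exact h3 _ h4 h5 h6
  · rintro rfl
    exact ⟨σ, σ_anti, rfl⟩

lemma selfComplementary_of_anti {V : Type} {H : SimpleGraph V} {P : Equiv.Perm V}
    (h : IsAnti H P) : SelfComplementary H := by
  refine ⟨⟨P, ?_⟩⟩
  intro a b
  rw [SimpleGraph.compl_adj]
  by_cases hab : a = b
  · subst hab
    simp
  · constructor
    · rintro ⟨-, h2⟩
      exact (h a b hab).2 h2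
    · intro h2
      exact ⟨fun h' => hab (P.injective h'), (h a b hab).1 h2⟩

lemma tri_compute : ∀ v : Fin 9, ((Finset.univ.powersetCard 3).filter
    (fun t : Finset (Fin 9) => (∀ a ∈ t, ∀ b ∈ t, a ≠ b → G.Adj a b) ∧ v ∈ t)).card = 2 := by
  decide +kernel

lemma tri_card : ∀ v : Fin 9, trianglesAt G v = 2 := by
  intro v
  unfold trianglesAt
  have h : {t : Finset (Fin 9) | G.IsNClique 3 t ∧ v ∈ t} =
      ((Finset.univ.powersetCard 3).filter (fun t : Finset (Fin 9) =>
        (∀ a ∈ t, ∀ b ∈ t, a ≠ b → G.Adj a b) ∧ v ∈ t) : Finset (Finset (Fin 9))) := by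
    ext t
    simp only [Set.mem_ofPred_eq, Finset.coe_filter, Finset.mem_powersetCard_univ,
      SimpleGraph.isNClique_iff, SimpleGraph.IsClique, Set.Pairwise, Finset.mem_coe]
    tauto
  rw [h, Set.ncard_coe_finset]
  exact tri_compute v

/-- There is a `2k`-regular self-complementary graph on `4k + 1` vertices, `k = 2`, in which every
vertex lies in exactly `k (k - 1)` triangles although all vertices but one are moved by every
isomorphism-permutation. -/
theorem result : ∃ (k : ℕ) (G : SimpleGraph (Fin (4 * k + 1))), k = 2 ∧ SelfComplementary G ∧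
    (∀ v, (G.neighborSet v).ncard = 2 * k) ∧ (∀ v, trianglesAt G v = k * (k - 1)) ∧
    ∃ v₀, F G = {v₀} := by
  refine ⟨2, G, rfl, selfComplementary_of_anti σ_anti, ?_, tri_card, 0, F_eq⟩
  intro v
  have h : G.neighborSet v = (nb v : Set (Fin 9)) := by
    ext w
    exact Iff.rfl
  have h2 : ∀ v : Fin 9, (nb v).card = 4 := by decide
  rw [h, Set.ncard_coe_finset]
  exact h2 v

end Pool.Agent.Results.MP_b6be33_co.OrderNine
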